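import Pool.Agent.FTL.Rec5
import Pool.Agent.FC6.Fin5b
import Pool.Agent.FC6.F5e

/-! # Linear-size free sets in planar graphs of maximum degree 3, 4 and 5 (MP_ffac5a_co, Q1)

For `Δ = 3`, `Δ = 4` and `Δ = 5` there is `c > 0` such that every planar graph with `n` vertices
and maximum degree at most `Δ` has a free set with at least `c n` vertices.

Sketch of the proof.  (1) Files in `Pool/Agent/FREE` and `Pool/Agent/FRF`: if at least half of the
vertices lie in components of small diameter, one vertex of each such component gives a free set.
Otherwise choose linearly many seeds, far apart from each other.  It suffices that the graph has a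
2-colouring and an extension to a triangulated sphere in which both colour classes induce trees and
every seed has a neighbour of the other colour along an edge of the graph: the closed curve which
separates the two trees is realised by a straight-line drawing as the y-axis with one point near
every seed at a prescribed height, and a perturbation followed by a linear map moves the seeds to
an arbitrary set of points.

(2) Files in `Pool/Agent/FTL`: this colouring theorem is reduced to a statement on states: maps on
the sphere with real and virtual edges in which every vertex has at most `Δ` units (real edges and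
slots), and in which every 2-colouring of the vertices has to be such that all faces with units are
visited by the curve.

(3) Files in `Pool/Agent/FC6`: for `Δ = 5` a minimal counterexample is excluded by cuts of size at
most 3, flips, an extension theorem for colourings of the outside of a configuration (a finite
check in the kernel, for 45 reducible configurations) and a discharging argument. -/

namespace Pool.Agent.Results.MP_ffac5a_co.LinearFreeSetsDegFive

/-- `p` is a straight-line crossing-free drawing of the graph `G`: distinct vertices are mapped to
distinct points of the plane, every edge is mapped to the open segment between the images of its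
ends, distinct edges are disjoint, and no edge contains (the image of) a vertex. -/
structure IsDrawing {V : Type*} (G : SimpleGraph V) (p : V → ℝ × ℝ) : Prop where
  injective : Function.Injective p
  disjoint_edges : ∀ a b c d, G.Adj a b → G.Adj c d → s(a, b) ≠ s(c, d) →
    Disjoint (openSegment ℝ (p a) (p b)) (openSegment ℝ (p c) (p d))
  not_mem_edge : ∀ a b v, G.Adj a b → p v ∉ openSegment ℝ (p a) (p b)

/-- `G` is planar: it has a straight-line crossing-free drawing. -/
def IsPlanar {V : Type*} (G : SimpleGraph V) : Prop := ∃ p : V → ℝ × ℝ, IsDrawing G p

/-- `S` is a free set of `G`: for every set `P` of `|S|` points of the plane there is a straight-line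
crossing-free drawing of `G` in which the image of `S` is `P`. -/
def IsFreeSet {V : Type*} (G : SimpleGraph V) (S : Finset V) : Prop :=
  ∀ P : Finset (ℝ × ℝ), P.card = S.card →
    ∃ p : V → ℝ × ℝ, IsDrawing G p ∧ p '' (S : Set V) = (P : Set (ℝ × ℝ))

/-- For `Δ = 3`, `Δ = 4` and `Δ = 5` there is a constant `c > 0` such that every finite planar graph
with `n` vertices and maximum degree at most `Δ` has a free set of size at least `c n`. -/
theorem result (Δ : ℕ) (hΔ : Δ = 3 ∨ Δ = 4 ∨ Δ = 5) :
    ∃ c : ℝ, 0 < c ∧ ∀ (V : Type*) [Fintype V] (G : SimpleGraph V), IsPlanar G →
      (∀ v, (G.neighborSet v).ncard ≤ Δ) →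
      ∃ S : Finset V, c * (Fintype.card V : ℝ) ≤ (S.card : ℝ) ∧ IsFreeSet G S := by
  obtain ⟨K, hK, h⟩ := FRF.free_fin_of_col 5 (FRF.col_of_colT (FTL.colT5_of_BB
    (Pool.FC6.bb5_of_f3m fun D V _ _ S sg hS hM hs => Pool.FC6.St.f3m hS hM hs)))
  refine ⟨1 / (K : ℝ), by positivity, ?_⟩
  intro V _ G hG hdeg
  obtain ⟨p, hp⟩ := hG
  obtain ⟨S, hcard, hS⟩ := h V G ⟨p, hp.injective, hp.disjoint_edges, hp.not_mem_edge⟩
    (fun v => (hdeg v).trans (by omega))
  refine ⟨S, ?_, ?_⟩
  · have h1 : (Fintype.card V : ℝ) ≤ (K : ℝ) * (S.card : ℝ) := by exact_mod_cast hcard
    rw [div_mul_eq_mul_div, one_mul, div_le_iff₀ (by positivity)]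
    linarith
  · intro P hP
    obtain ⟨q, hq, hqP⟩ := hS P hP
    exact ⟨q, ⟨hq.inj, hq.disj, hq.vert⟩, hqP⟩

end Pool.Agent.Results.MP_ffac5a_co.LinearFreeSetsDegFive
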